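import Mathlib
import Pool.Agent.R356.Gold.Grow

set_option autoImplicit false

/-!
# The growth exponent of the best approximations of `(φ₄, φ₄ ^ 2)`

Let `φ` be the real root of `t ^ 3 = t + 1`. For the sup-norm and for the Euclidean norm the limit
`G = lim M_ν ^ (1 / ν)` exists, where `M_1 < M_2 < ...` are the denominators of the best
approximation vectors of `(φ, φ ^ 2)`. It equals

`φ ^ (π / (arctan (√(3 φ ^ 2 - 4) / φ) + arctan (√(3 φ ^ 2 - 4) / (2 σ - φ))))`,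

with `σ = φ ^ 2` for the sup-norm and `σ = (φ ^ 2 + 3 φ + 1 + √(φ ^ 2 + 4 φ + 1)) / (3 φ + 1)` for the
Euclidean norm. In both cases `G > φ ^ 2`, in particular `G ≠ φ`.

All best approximation vectors of large denominator are, up to sign, consecutive triples
`(P k, P (k + 1), P (k + 2))` of the Padovan sequence, and a large `k` occurs exactly when the errors
`u = P k φ - P (k + 1)` and `w = P k φ ^ 2 - P (k + 2)` satisfy `u w < 0` or `σ |u| < |w|`.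
-/

namespace Pool.Agent.Results.MP_8d3206_nt.GrowthExponent

open Filter Topology

/-- `(x, y, z)` is a best approximation vector of `(θ₁, θ₂)` for the norm `N`: it is not zero, and
the only integer points `(x', y', z')` with `|x'| ≤ |x|` and
`N (x' θ₁ - y', x' θ₂ - z') ≤ N (x θ₁ - y, x θ₂ - z)` are `0` and `± (x, y, z)`. -/
def IsBest (N : ℝ → ℝ → ℝ) (θ₁ θ₂ : ℝ) (x y z : ℤ) : Prop :=
  ¬(x = 0 ∧ y = 0 ∧ z = 0) ∧ ∀ x' y' z' : ℤ, |x'| ≤ |x| →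
    N (x' * θ₁ - y') (x' * θ₂ - z') ≤ N (x * θ₁ - y) (x * θ₂ - z) →
    (x' = 0 ∧ y' = 0 ∧ z' = 0) ∨ (x' = x ∧ y' = y ∧ z' = z) ∨ (x' = -x ∧ y' = -y ∧ z' = -z)

/-- the set of the numbers `|x|` for the best approximation vectors `(x, y, z)` -/
def Den (N : ℝ → ℝ → ℝ) (θ₁ θ₂ : ℝ) : Set ℕ :=
  {m | ∃ x y z : ℤ, IsBest N θ₁ θ₂ x y z ∧ x.natAbs = m}

/-- `M_ν`, the `ν`-th smallest element of `Den`, for `ν = 1, 2, 3, ...` -/
noncomputable def M (N : ℝ → ℝ → ℝ) (θ₁ θ₂ : ℝ) (ν : ℕ) : ℕ := by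
  classical exact Nat.nth (fun m => m ∈ Den N θ₁ θ₂) (ν - 1)

/-- `G = liminf M_ν ^ (1 / ν)` -/
noncomputable def G (N : ℝ → ℝ → ℝ) (θ₁ θ₂ : ℝ) : ℝ :=
  liminf (fun ν : ℕ => (M N θ₁ θ₂ ν : ℝ) ^ (1 / (ν : ℝ))) atTop

/-- the sup-norm -/
noncomputable def supN (u w : ℝ) : ℝ := max |u| |w|

/-- the Euclidean norm -/
noncomputable def eucN (u w : ℝ) : ℝ := √(u ^ 2 + w ^ 2)

/-- the value of `G` with parameter `σ` -/
noncomputable def val (φ σ : ℝ) : ℝ :=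
  φ ^ (Real.pi / (Real.arctan (√(3 * φ ^ 2 - 4) / φ) + Real.arctan (√(3 * φ ^ 2 - 4) / (2 * σ - φ))))

/-- the parameter of the Euclidean norm -/
noncomputable def sigmaE (φ : ℝ) : ℝ := (φ ^ 2 + 3 * φ + 1 + √(φ ^ 2 + 4 * φ + 1)) / (3 * φ + 1)

/-- The Padovan sequence `0, 0, 1, 0, 1, 1, 1, 2, 2, 3, 4, 5, 7, ...` -/
def P : ℕ → ℤ
  | 0 => 0
  | 1 => 0
  | 2 => 1
  | (n + 3) => P (n + 1) + P n

/-- The best approximation vectors of large denominator are the triples `(P k, P (k+1), P (k+2))`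
with `u w < 0` or `σ |u| < |w|` for the errors `u`, `w`, up to sign. -/
def Padovan (N : ℝ → ℝ → ℝ) (φ σ : ℝ) : Prop :=
  ∃ B : ℤ, ∀ x y z : ℤ, B ≤ x → (IsBest N φ (φ ^ 2) x y z ↔
    ∃ k : ℕ, (x = P k ∧ y = P (k + 1) ∧ z = P (k + 2)) ∧
      ((x * φ - y) * (x * φ ^ 2 - z) < 0 ∨ σ * |x * φ - y| < |x * φ ^ 2 - z|))

open Pool.Agent.R356.Gold in
theorem P_eq (n : ℕ) : P n = Pool.Agent.R356.Gold.P n := by
  induction n using Nat.strong_induction_on with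
  | _ n ih =>
    match n with
    | 0 => rfl
    | 1 => rfl
    | 2 => rfl
    | (m + 3) =>
      rw [P, Pool.Agent.R356.Gold.P_rec, ih (m + 1) (by omega), ih m (by omega)]

theorem den_euc (θ₁ θ₂ : ℝ) : Den eucN θ₁ θ₂ =
    Pool.Agent.R356.Gold.Den (fun u w => u ^ 2 + w ^ 2) θ₁ θ₂ := by
  unfold Den Pool.Agent.R356.Gold.Den IsBest Pool.Agent.R356.Gold.IsBest eucN
  have h : ∀ a b c d : ℝ, √(a ^ 2 + b ^ 2) ≤ √(c ^ 2 + d ^ 2) ↔ a ^ 2 + b ^ 2 ≤ c ^ 2 + d ^ 2 :=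
    fun a b c d => Real.sqrt_le_sqrt_iff (by positivity)
  simp only [h]

theorem isBest_euc (θ₁ θ₂ : ℝ) (x y z : ℤ) : IsBest eucN θ₁ θ₂ x y z ↔
    Pool.Agent.R356.Gold.IsBest (fun u w => u ^ 2 + w ^ 2) θ₁ θ₂ x y z := by
  unfold IsBest Pool.Agent.R356.Gold.IsBest eucN
  have h : ∀ a b c d : ℝ, √(a ^ 2 + b ^ 2) ≤ √(c ^ 2 + d ^ 2) ↔ a ^ 2 + b ^ 2 ≤ c ^ 2 + d ^ 2 :=
    fun a b c d => Real.sqrt_le_sqrt_iff (by positivity)
  simp only [h]

theorem main {φ σ : ℝ} (hφ : φ ^ 3 = φ + 1) {N F : ℝ → ℝ → ℝ}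
    (hF : Pool.Agent.R356.Gold.Good φ σ F) (hσ : φ < 2 * σ)
    (hN : Den N φ (φ ^ 2) = Pool.Agent.R356.Gold.Den F φ (φ ^ 2)) :
    (Den N φ (φ ^ 2)).Infinite ∧
    Tendsto (fun ν : ℕ => (M N φ (φ ^ 2) ν : ℝ) ^ (1 / (ν : ℝ))) atTop (𝓝 (val φ σ)) := by
  classical
  obtain ⟨h1, h2⟩ := Pool.Agent.R356.Gold.growth hφ hF hσ
  rw [← hN] at h1 h2
  refine ⟨h1, ?_⟩
  rw [← tendsto_add_atTop_iff_nat 1]
  have hpi := Real.pi_pos
  have e : val φ σ = φ ^ (1 / (Pool.Agent.R356.Gold.et φ / Real.pi +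
      Pool.Agent.R356.Gold.et2 φ σ / Real.pi)) := by
    unfold val Pool.Agent.R356.Gold.et Pool.Agent.R356.Gold.et2
    rw [← add_div, one_div_div]
  rw [e]
  refine h2.congr (fun n => ?_)
  unfold M
  rw [Nat.add_sub_cancel]
  push_cast
  congr!

theorem large {φ σ : ℝ} (hφ : φ ^ 3 = φ + 1) (hσ : φ < 2 * σ)
    (h : 3 * φ ^ 2 - 4 < φ * (2 * σ - φ)) : φ ^ 2 < val φ σ := by
  have hb := Pool.Agent.R356.Gold.b_pos hφ
  have hb2 := Pool.Agent.R356.Gold.b_sq hφ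
  have t0 := Pool.Agent.R356.Gold.t_pos hφ
  have l1 := Pool.Agent.R356.Gold.t_lo hφ
  have h2 : 0 < 2 * σ - φ := by linarith
  have hpi := Real.pi_pos
  set b := √(3 * φ ^ 2 - 4) with hbdef
  have p1 : 0 < Real.arctan (b / φ) := Real.arctan_pos.2 (by positivity)
  have p2 : 0 < Real.arctan (b / (2 * σ - φ)) := Real.arctan_pos.2 (by positivity)
  have h3 : b / (2 * σ - φ) < (b / φ)⁻¹ := by
    rw [inv_div, div_lt_div_iff₀ h2 hb]
    nlinarith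
  have h4 : Real.arctan (b / (2 * σ - φ)) < Real.pi / 2 - Real.arctan (b / φ) := by
    rw [← Real.arctan_inv_of_pos (by positivity)]
    exact Real.arctan_strictMono h3
  have h5 : 2 < Real.pi / (Real.arctan (b / φ) + Real.arctan (b / (2 * σ - φ))) := by
    rw [lt_div_iff₀ (by linarith)]
    linarith
  unfold val
  rw [← hbdef]
  calc φ ^ 2 = φ ^ (2 : ℝ) := by norm_cast
    _ < _ := Real.rpow_lt_rpow_of_exponent_lt (by linarith) h5

theorem padovan {φ σ : ℝ} (hφ : φ ^ 3 = φ + 1) {N F : ℝ → ℝ → ℝ}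
    (hF : Pool.Agent.R356.Gold.Good φ σ F)
    (hN : ∀ x y z : ℤ, IsBest N φ (φ ^ 2) x y z ↔ Pool.Agent.R356.Gold.IsBest F φ (φ ^ 2) x y z) :
    Padovan N φ σ := by
  obtain ⟨K, hK9, hA, hB⟩ := Pool.Agent.R356.Gold.structure_thm hφ hF
  have hK : 0 < P K := by
    have := Pool.Agent.R356.Gold.P_pos (K - 4)
    rw [show K - 4 + 4 = K by omega, ← P_eq] at this
    omega
  refine ⟨P K, fun x y z hx => ?_⟩
  rw [hN]
  constructor
  · intro hb
    obtain ⟨k, hk, h1, h2⟩ := hA x y z hb (by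
      rw [abs_of_pos (by omega), ← P_eq]; exact hx)
    have hb' := hB k hk h2
    rw [abs_of_pos (by omega)] at h1
    have hx0 : 0 < x := by omega
    have key : x = Pool.Agent.R356.Gold.P k ∧ y = Pool.Agent.R356.Gold.P (k + 1) ∧
        z = Pool.Agent.R356.Gold.P (k + 2) := by
      rcases le_total (F (x * φ - y) (x * φ ^ 2 - z))
        (F (Pool.Agent.R356.Gold.P k * φ - Pool.Agent.R356.Gold.P (k + 1))
          (Pool.Agent.R356.Gold.P k * φ ^ 2 - Pool.Agent.R356.Gold.P (k + 2))) with h | h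
      · rcases hb'.2 x y z (by rw [h1]) h with h3 | h3 | h3
        · omega
        · exact h3
        · omega
      · rcases hb.2 _ _ _ (by rw [h1]) h with h3 | h3 | h3
        · omega
        · exact ⟨h3.1.symm, h3.2.1.symm, h3.2.2.symm⟩
        · omega
    refine ⟨k, ?_, ?_⟩
    · rw [P_eq, P_eq, P_eq]; exact key
    · rw [key.1, key.2.1, key.2.2]
      exact h2
  · rintro ⟨k, ⟨rfl, rfl, rfl⟩, h2⟩
    simp only [P_eq] at *
    refine hB k ?_ h2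
    by_contra hcon
    push Not at hcon
    have := Pool.Agent.R356.Gold.P_lt_of hcon hK9
    omega

/-- **The growth exponent of the best approximations of `(φ₄, φ₄ ^ 2)`.** -/
theorem result (φ : ℝ) (hφ : φ ^ 3 = φ + 1) :
    ((Den supN φ (φ ^ 2)).Infinite ∧
      Tendsto (fun ν : ℕ => (M supN φ (φ ^ 2) ν : ℝ) ^ (1 / (ν : ℝ))) atTop
        (𝓝 (G supN φ (φ ^ 2))) ∧
      G supN φ (φ ^ 2) = val φ (φ ^ 2) ∧ φ ^ 2 < G supN φ (φ ^ 2) ∧ Padovan supN φ (φ ^ 2)) ∧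
    ((Den eucN φ (φ ^ 2)).Infinite ∧
      Tendsto (fun ν : ℕ => (M eucN φ (φ ^ 2) ν : ℝ) ^ (1 / (ν : ℝ))) atTop
        (𝓝 (G eucN φ (φ ^ 2))) ∧
      G eucN φ (φ ^ 2) = val φ (sigmaE φ) ∧ φ ^ 2 < G eucN φ (φ ^ 2) ∧
      Padovan eucN φ (sigmaE φ)) := by
  have l1 := Pool.Agent.R356.Gold.t_lo hφ
  have l2 := Pool.Agent.R356.Gold.t_hi hφ
  have s1 := Pool.Agent.R356.Gold.sq_lo hφ
  have s2 := Pool.Agent.R356.Gold.sq_hi hφ
  have gs := Pool.Agent.R356.Gold.good_sup hφ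
  have ge := Pool.Agent.R356.Gold.good_euc hφ
  have r1 := Pool.Agent.R356.Gold.sE_lo hφ
  obtain ⟨a1, a2⟩ := main hφ (N := supN) gs (by linarith) rfl
  obtain ⟨b1, b2⟩ := main hφ (N := eucN) ge (by linarith) (den_euc _ _)
  have a3 : G supN φ (φ ^ 2) = val φ (φ ^ 2) := a2.liminf_eq
  have b3 : G eucN φ (φ ^ 2) = val φ (sigmaE φ) := b2.liminf_eq
  refine ⟨⟨a1, ?_, a3, ?_, ?_⟩, ⟨b1, ?_, b3, ?_, ?_⟩⟩
  · rw [a3]; exact a2
  · rw [a3]; exact large hφ (by linarith) (by nlinarith)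
  · exact padovan hφ gs (fun x y z => Iff.rfl)
  · rw [b3]; exact b2
  · rw [b3]
    have : 1.9 < sigmaE φ := r1
    exact large hφ (by linarith) (by nlinarith)
  · exact padovan hφ ge (isBest_euc _ _)

end Pool.Agent.Results.MP_8d3206_nt.GrowthExponent
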